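import Pool.Agent.NNe.Chk
import Pool.Agent.NNe.Slots

set_option linter.all false
set_option maxRecDepth 1000000
namespace Pool.Agent.NNr.R11_5_6_8

open Pool.Agent.NNe

noncomputable def SI0_0 : Nat := (nat_lit 0xc0300c0300c030080200802008020080200801004010040100000)
noncomputable def SW0_0 : Nat := (nat_lit 0x2a014009803c00c001009003801a00c0028010006002000004401600a0048020020007)
noncomputable def RV0_0 : Nat := (nat_lit 0x20800720600918400b08a0b608a0be08a01508a04220601818402018200708a02e18402218200910000208a03608a05c08a04a18402a18200f10000808a07c08a088)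
noncomputable def CO0_0 : Nat := (nat_lit 0x2a80402a80302a80202a7450297850290c50269c50265430265420265410255850255820255810255800251c5016ac5016645016642016641016640012b05012745)
noncomputable def Y0_0_0_1 : Nat := (nat_lit 0x3e00000000030000000000f8000000000c)
noncomputable def Y0_0_2_3 : Nat := (nat_lit 0x1f800000000000000000000e0000000000000000000078000000000e0000000001e00000000000000000001e0000000000c00000000018000000000300000000006000000000000000000007800000000000000000001e00000000000)
noncomputable def C0_0 : Cd := (Cd.mk (nat_lit 22) (nat_lit 5) (nat_lit 1040) SI0_0 SW0_0 RV0_0 CO0_0 (Sl.cons (Sd.mk (nat_lit 4) (nat_lit 4) (nat_lit 0) (nat_lit 2) (Sb.cons (nat_lit 8) (nat_lit 0) (nat_lit 2) Sb.nil) (Bl.r Y0_0_0_1 (nat_lit 1) Bl.nil)) (Sl.cons (Sd.mk (nat_lit 5) (nat_lit 4) (nat_lit 2) (nat_lit 5) (Sb.cons (nat_lit 8) (nat_lit 0) (nat_lit 5) Sb.nil) (Bl.c Y0_0_0_1 (nat_lit 4) (nat_lit 0) Bl.nil)) (Sl.cons (Sd.mk (nat_lit 9) (nat_lit 8) (nat_lit 7) (nat_lit 9) (Sb.cons (nat_lit 4) (nat_lit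 0) (nat_lit 5) (Sb.cons (nat_lit 8) (nat_lit 5) (nat_lit 4) Sb.nil)) (Bl.r Y0_0_2_3 (nat_lit 3) Bl.nil)) (Sl.cons (Sd.mk (nat_lit 10) (nat_lit 8) (nat_lit 16) (nat_lit 6) (Sb.cons (nat_lit 4) (nat_lit 0) (nat_lit 2) (Sb.cons (nat_lit 8) (nat_lit 2) (nat_lit 4) Sb.nil)) (Bl.c Y0_0_2_3 (nat_lit 18) (nat_lit 2) Bl.nil)) Sl.nil)))))
noncomputable def SI0_1 : Nat := (nat_lit 0x300c02008020080200401004010040100401000000000000000)
noncomputable def SW0_1 : Nat := (nat_lit 0xd002803001600a0048010028012008804001e008003800c02600e0030008002000)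
noncomputable def RV0_1 : Nat := (nat_lit 0x8a0bf08a01608a02f18402318200a10000308a03708a05d08a04b18402b18201010000918402e10000c08a05108a07d08a08908a092208000206000184000)
noncomputable def CO0_1 : Nat := (nat_lit 0x297850290c50255850255820255810255800251c5016ac50166450166420166410166400156820156800152c5012b05012745011785011004011003011002)
noncomputable def Y0_1_0_1 : Nat := (nat_lit 0xe00000000000000000000380000000000000000001fe000000000000000000060800000000c10000000018200000000100000000006580000000000)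
noncomputable def Y0_1_2_3 : Nat := (nat_lit 0x18000000000000000000006000000000000000000001800000000000000000000600000000000000000000180000000000)
noncomputable def C0_1 : Cd := (Cd.mk (nat_lit 21) (nat_lit 6) (nat_lit 336) SI0_1 SW0_1 RV0_1 CO0_1 (Sl.cons (Sd.mk (nat_lit 4) (nat_lit 4) (nat_lit 0) (nat_lit 6) (Sb.cons (nat_lit 4) (nat_lit 0) (nat_lit 4) (Sb.cons (nat_lit 8) (nat_lit 4) (nat_lit 2) Sb.nil)) (Bl.r Y0_1_0_1 (nat_lit 1) Bl.nil)) (Sl.cons (Sd.mk (nat_lit 5) (nat_lit 4) (nat_lit 6) (nat_lit 8) (Sb.cons (nat_lit 4) (nat_lit 0) (nat_lit 3) (Sb.cons (nat_lit 8) (nat_lit 3) (nat_lit 5) Sb.nil)) (Bl.c Y0_1_0_1 (nat_lit 12) (nat_lit 0) Bl.nil)) (Sl.cons (Sd.mk (nat_lit 9) (nat_lit 8) (nat_lit 14) (nat_lit 5) (Sb.cons (nat_lit 4) (nat_lit 0) (nat_lit 5) Sb.nil) (Bl.r Y0_1_2_3 (nat_lit 3) Bl.nil)) (Sl.cons (Sd.mk (nat_lit 10) (nat_lit 8) (nat_lit 19) (nat_lit 2) (Sb.cons (nat_lit 4) (nat_lit 0) (nat_lit 2) Sb.nil) (Bl.c Y0_1_2_3 (nat_lit 10) (nat_lit 2) Bl.nil)) Sl.nil)))))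
noncomputable def SI0_2 : Nat := (nat_lit 0x14050140501405014050140501004010040100401004010040100300c0300c0300c0300c0300c020080200802008020080200801004010040100401004010000000000000000000000000)
noncomputable def SW0_2 : Nat := (nat_lit 0x1d80e80720310130070024011008002407003001780b804a024011808803600f00400dc05a02c01580a804202000d003800e036014807c03201800b803400c00500200d4068033014007802c00c005800c06402700e80540280130050008002000)
noncomputable def RV0_2 : Nat := (nat_lit 0x20800820600a18400c08a0b708a0c008a01708a00f20800a18401008a01208a04320601918402118200808a03018402418200b10000408a03808a03f08a03308a05e08a04c18402c18201110000a18402f10000d08a05208a05908a04e08a07e08a08a08a09320800120600118400108a09b08a00020600418400408a06420801018403308a0b208a0ba08a06c18403910001308a06908a07808a08408a08e88a020a0600d98401308a097a06011984017982000)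
noncomputable def CO0_2 : Nat := (nat_lit 0x2a80402a80302a80202a7450297850290c50288850288840288820280c50269c50265430265420265410255850255820255810255800251c50249c50241c5016ac50166450166420166410166400156820156800152c5014ac50142c5012b05012745011785011004011003011002010b8501004501004301004200aa0500aa0400aa0200a7450097850092c5008a82008a800082c5002b05002745001785001105001103001102000b85000143000142000141)
noncomputable def Y0_2_1_0 : Nat := (nat_lit 0x1ff80000000024000000007900000000010000000001e400000000000000000007fe0000000000000000001ff80000000000000000007fe0000000000000000001e000000000000000000007a000000000e4000000001f800000000000)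
noncomputable def Y0_2_2_3 : Nat := (nat_lit 0x7fe0000000000000000001ff80000000000000000007c6000000000000000000181800000003030000000060600000000400000000019180000000000000000007fe0000000000000000001ff800000000280000000060e00000000400000000019780000000028)
noncomputable def Y0_2_4_5 : Nat := (nat_lit 0x1f800000000000000000007200000000064000000001c80000000000000000000720000000000000000001ff80000000100000000000f200000000000000000003c80000000000000000001f60000000002000000001ff80000000100000000007fe0000000040000000001ff80000000100)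
noncomputable def C0_2 : Cd := (Cd.mk (nat_lit 60) (nat_lit 6) (nat_lit 546) SI0_2 SW0_2 RV0_2 CO0_2 (Sl.cons (Sd.mk (nat_lit 0) (nat_lit 0) (nat_lit 0) (nat_lit 10) (Sb.cons (nat_lit 0) (nat_lit 0) (nat_lit 4) (Sb.cons (nat_lit 4) (nat_lit 4) (nat_lit 4) (Sb.cons (nat_lit 8) (nat_lit 8) (nat_lit 2) Sb.nil))) (Bl.c Y0_2_1_0 (nat_lit 18) (nat_lit 1) Bl.nil)) (Sl.cons (Sd.mk (nat_lit 2) (nat_lit 0) (nat_lit 10) (nat_lit 9) (Sb.cons (nat_lit 0) (nat_lit 0) (nat_lit 3) (Sb.cons (nat_lit 4) (nat_lit 3) (nat_lit 2) (Sb.cons (nat_lit 8) (nat_lit 5) (nat_lit 4) Sb.nil))) (Bl.r Y0_2_1_0 (nat_lit 0) Bl.nil)) (Sl.cons (Sd.mk (nat_lit 4) (nat_lit 4) (nat_lit 19) (nat_lit 10) (Sb.cons (nat_lit 0) (nat_lit 0) (nat_lit 4) (Sb.cons (nat_lit 4) (nat_lit 4) (nat_lit 4) (Sb.cons (nat_lit 8) (nat_lit 8) (nat_lit 2) Sb.nil))) (Bl.r Y0_2_2_3 (nat_lit 3) Bl.nil)) (Sl.cons (Sd.mk (nat_lit 5) (nat_lit 4) (nat_lit 29) (nat_lit 10) (Sb.cons (nat_lit 0) (nat_lit 0) (nat_lit 2) (Sb.cons (nat_lit 4) (nat_lit 2) (nat_lit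 3) (Sb.cons (nat_lit 8) (nat_lit 5) (nat_lit 5) Sb.nil))) (Bl.c Y0_2_2_3 (nat_lit 20) (nat_lit 2) Bl.nil)) (Sl.cons (Sd.mk (nat_lit 9) (nat_lit 8) (nat_lit 39) (nat_lit 11) (Sb.cons (nat_lit 0) (nat_lit 0) (nat_lit 2) (Sb.cons (nat_lit 4) (nat_lit 2) (nat_lit 5) (Sb.cons (nat_lit 8) (nat_lit 7) (nat_lit 4) Sb.nil))) (Bl.r Y0_2_4_5 (nat_lit 5) Bl.nil)) (Sl.cons (Sd.mk (nat_lit 10) (nat_lit 8) (nat_lit 50) (nat_lit 10) (Sb.cons (nat_lit 0) (nat_lit 0) (nat_lit 4) (Sb.cons (nat_lit 4) (nat_lit 4) (nat_lit 2) (Sb.cons (nat_lit 8) (nat_lit 6) (nat_lit 4) Sb.nil))) (Bl.c Y0_2_4_5 (nat_lit 22) (nat_lit 4) Bl.nil)) Sl.nil)))))))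
noncomputable def SI0_3 : Nat := (nat_lit 0xc0300c0300c0200802008020080200801004010040100000000000000000000)
noncomputable def SW0_3 : Nat := (nat_lit 0x3201800a003000e017009804802200b0030014008016008002801200300a803c01c00d0040008002000)
noncomputable def RV0_3 : Nat := (nat_lit 0x18403010000e08a05308a05a08a04f08a09420800220600218400208a09c08a00120600518400508a0bb08a06d18403a10001408a06a08a08f88a021a0600e98401408a098a06012984018982001)
noncomputable def CO0_3 : Nat := (nat_lit 0x156820156800152c5014ac50142c5011785011004011003011002010b850100450100430100420097850092c5008a82008a800082c5001785001105001103001102000b85000143000142000141)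
noncomputable def Y0_3_1_0 : Nat := (nat_lit 0x6d80000000040000000001b60000000026c0000000064000000000400000000019000000000000000000006d8000000009b)
noncomputable def Y0_3_2_3 : Nat := (nat_lit 0x3e0000000001c00000000000000000000000000000000000000000000000000003800000000070000000003e0000000001c000000000f800000000170000000000000000000000000000000380000000007)
noncomputable def C0_3 : Cd := (Cd.mk (nat_lit 26) (nat_lit 7) (nat_lit 52) SI0_3 SW0_3 RV0_3 CO0_3 (Sl.cons (Sd.mk (nat_lit 0) (nat_lit 0) (nat_lit 0) (nat_lit 8) (Sb.cons (nat_lit 0) (nat_lit 0) (nat_lit 4) (Sb.cons (nat_lit 4) (nat_lit 4) (nat_lit 4) Sb.nil)) (Bl.c Y0_3_1_0 (nat_lit 10) (nat_lit 1) Bl.nil)) (Sl.cons (Sd.mk (nat_lit 2) (nat_lit 0) (nat_lit 8) (nat_lit 5) (Sb.cons (nat_lit 0) (nat_lit 0) (nat_lit 3) (Sb.cons (nat_lit 4) (nat_lit 3) (nat_lit 2) Sb.nil)) (Bl.r Y0_3_1_0 (nat_lit 0) Bl.nil)) (Sl.cons (Sd.mk (nat_lit 4) (nat_lit 4) (nat_lit 13) (nat_lit 8) (Sb.cons (nat_lit 0) (nat_lit 0) (nat_lit 4) (Sb.cons (nat_lit 4) (nat_lit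 4) (nat_lit 4) Sb.nil)) (Bl.r Y0_3_2_3 (nat_lit 3) Bl.nil)) (Sl.cons (Sd.mk (nat_lit 5) (nat_lit 4) (nat_lit 21) (nat_lit 5) (Sb.cons (nat_lit 0) (nat_lit 0) (nat_lit 2) (Sb.cons (nat_lit 4) (nat_lit 2) (nat_lit 3) Sb.nil)) (Bl.c Y0_3_2_3 (nat_lit 16) (nat_lit 2) Bl.nil)) Sl.nil)))))
noncomputable def SI0_4 : Nat := (nat_lit 0x300c0300c0200801004010040100401000000000000000)
noncomputable def SW0_4 : Nat := (nat_lit 0x3001600a0028024008012008804001c008003800c01e00d0030008002000)
noncomputable def RV0_4 : Nat := (nat_lit 0x8a01020800b18401108a01308a04008a03408a06520801118403408a0b318403b10001508a06b08a07908a08508a099a06013984019982002)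
noncomputable def CO0_4 : Nat := (nat_lit 0x288850288840288820280c50249c50241c500aa0500aa0400aa0200a745008a82008a800082c5002b05002745000b85000143000142000141)
noncomputable def Y0_4_1_0 : Nat := (nat_lit 0x58000000000b00000000000000000000000000000004000000000000000000001600000000000000000001c000000000000000000007000000000000000000001d8000000003b)
noncomputable def Y0_4_2_3 : Nat := (nat_lit 0x160000000002800000000058000000000a)
noncomputable def C0_4 : Cd := (Cd.mk (nat_lit 19) (nat_lit 7) (nat_lit 262) SI0_4 SW0_4 RV0_4 CO0_4 (Sl.cons (Sd.mk (nat_lit 0) (nat_lit 0) (nat_lit 0) (nat_lit 6) (Sb.cons (nat_lit 0) (nat_lit 0) (nat_lit 4) (Sb.cons (nat_lit 8) (nat_lit 4) (nat_lit 2) Sb.nil)) (Bl.c Y0_4_1_0 (nat_lit 14) (nat_lit 1) Bl.nil)) (Sl.cons (Sd.mk (nat_lit 2) (nat_lit 0) (nat_lit 6) (nat_lit 7) (Sb.cons (nat_lit 0) (nat_lit 0) (nat_lit 3) (Sb.cons (nat_lit 8) (nat_lit 3) (nat_lit 4) Sb.nil)) (Bl.r Y0_4_1_0 (nat_lit 0) Bl.nil)) (Sl.cons (Sd.mk (nat_lit 9) (nat_lit 8) (nat_lit 13) (nat_lit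 2) (Sb.cons (nat_lit 0) (nat_lit 0) (nat_lit 2) Sb.nil) (Bl.r Y0_4_2_3 (nat_lit 3) Bl.nil)) (Sl.cons (Sd.mk (nat_lit 10) (nat_lit 8) (nat_lit 15) (nat_lit 4) (Sb.cons (nat_lit 0) (nat_lit 0) (nat_lit 4) Sb.nil) (Bl.c Y0_4_2_3 (nat_lit 4) (nat_lit 2) Bl.nil)) Sl.nil)))))
noncomputable def SI0_5 : Nat := (nat_lit 0x200802008020080200802008020080200802008020080200802008020080200801c0701c0701c0701c0701c0701c0701806018060180601806018060180601806018060180601806018060180601806018060180601806018060180601806018060180601405014050140501405014050140501405014050140501404010040100401004010040100401004010040100401004010040100401004010040100300c0300c0300c0300c0300c0300c0300c0300c0300c0300c0300c0300c0300c0300802008020080200802008020080200401004010040100401004010040100401004010040100401000000000000000000000000000000)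
noncomputable def SW0_5 : Nat := (nat_lit 0xea07403001880be05e02e81700c205b02d0164088046021810808a04102000fc05602a00f807801600a03981c80b005701f00f405202800e807001200803781c40dc06d03601c00d606a03481500ac05302901440aa050027813807403c01c80e006e03601d80d4068033013809803201b00c005c02c01500d0050026012003801818a0c405582a813c09a04f827413809b04c826012e032012804402000f002830817a0c3060830017e0be05e02ec1740a9054025412209604a024c124090047823806203001780b804800e00202e016a0b905b82d81680b3059029c14c08c043823411608a044822010c08504201a009a04c025812801a00305882c014a0a404182080ce049006000800200005782b81460a204001ec10207f03f01f40f807a03c81e00cc065032012005a02305682b01420a003b81d80c60470160088042020)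
noncomputable def RV0_5 : Nat := (nat_lit 0x8a07508a01f08a0b908a07308a06818403718201410001108a01d08a00d20600c18400e08a0c308a07218403810001208a01c08a00e20800918400f08a07108a01b08a07408a01e08a07008a01a08a06208a04608a05808a03e08a05708a03d08a05608a03c08a06108a04508a05508a03b08a08188a02b88a023a0601098401608a00b20800320600318400308a08d88a029a0601498401a98200308a00908a00320600718400708a09688a02888a02498401b98200490000008a00808a00420800418400888a02708a00708a09f88a02a88a02598401c98200590000108a00a08a00520800518400988a02608a00608a0c508a0af08a0c208a0b808a0b108a0ad08a01908a00c20600b18400d20800620600818400a08a0c108a01808a01120800c18401208a01408a0ab08a0a308a04408a03218402618200d10000608a02d20601618401e08a0a908a0a708a0a508a0a108a03a20601718401f18200608a02c20601518401d08a03118402518200c10000508a03908a04108a03508a0aa08a0a208a06018403110000f08a04820800e18402808a0a808a0a608a0a408a0a008a05408a04918402918200e10000708a04720800d18402708a05f08a04d18402d18201210000b08a05b08a05008a09e08a08008a09508a08c08a08308a07708a07f08a08b08a09d08a00220600618400608a0c408a0ae08a0bd08a0b508a0b008a0ac08a06f08a06718403618201310001008a06320800f18403208a06620801218403508a0b408a0bc08a06e08a09a08a07b08a09108a08708a08208a07608a07a08a08608a09088a022a0600f984015)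
noncomputable def CO0_5 : Nat := (nat_lit 0x3aac503a8c503a74503a6c503a64503a64203a64103a64003a4c503a44503a44303a4420397850396c50396820396800394c50394850394840394820392c50390c5038ac50388c50382c50380c5036ac50369c50366c50365c50356c50355c50352c50351c5034ac50349c50342c50341c5032b050329c50329050329030329020328c50328040328030328020327450325c50325430325420325410324c50324450324430324420317850315c50315850315820315810315800314c50314850314840314820311c50310c5030b850309c50309850309820309810309800308c50308850308840308820301c50300c502bb8502bb0502b78502b74502b34502b30502b0c502b04502b04302b04202b00402b00302b0020297850290c50288850288840288820280c5027b85027b050279c50279850279820279810279800279050279030279020277850277450273450273050271c50271430271420271410271050271030271020255850255820255810255800251c50249c50241c5017b85017b05017ac5017a82017a80017a05017a04017a020177850177450173450173050172c5017245017242017241017240017205017204017202016ac5016645016642016641016640014ac50142c5013b85013b05013785013745013345013305012b05012745010b8501004501004301004200bb8500bb0500b78500b74500b34500b30500b2c500b24500b24200b24100b24000b20500b20400b20200aa0500aa0400aa0200a7450097850092c5003b85003b05003785003745003345003305002b05002745001785001105001103001102)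
noncomputable def Y0_5_1_0 : Nat := (nat_lit 0x7e000000000e4000000001f8000000003b0000000007e000000000e4000000001f800000000030000000007e0000000000c000000001f8000000003b0000000007e00000000000000000001f800000000000000000007e00000000008000000001f800000000000000000007e00000000000000000001f800000000000000000007a00000000000000000001f8000000000200000001f9e0000000170000000007e680000000fc000000001f9e00000003f0800000007e780000000fc000000001fe000000003f0000000007f800000000000)
noncomputable def Y0_5_2_3 : Nat := (nat_lit 0xfe00000000090000000003f80000000067000000000fe00000000090000000003f80000000067000000000fe0000000019c000000003f800000000670000fffff06000004004000003ffffc1800001001000000ffffff8000004004000003fffffe000000000000000fdffdf800000a0cac00003fffffe00000100100)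
noncomputable def Y0_5_4_5 : Nat := (nat_lit 0x7e00000000000000000001f800000000000000000007e00000000000000000001f800000000040000000007e00000000010000000001f800000000040000000007e00000000000000000001f8000000000400000000076000000000a8000000001f800000000040000000007e00000000000000000001f800000000000000000007e00000000000000000001f800000000000000000007e00000000000000000001d8000000002a0000000007e00000000000000000001f800000000040000000007e00000000010000000001d8000000002a0000000007e00000000010000003ffe78000002e584000000fff9e00000001610000003ffe780000000584000000fff9e000001f8000000003ffe78000002e000000000fffe0000000b8000000003fff80000002e000)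
noncomputable def Y0_5_6_6 : Nat := (nat_lit 0x804804000000000000000000000000000000000000000000000000000000000000000000000000000000000000000000000000000007e17e100000240240000008048040000100900800002012010000040240200000804804000000000000000201201000000000000000000000000000000000000000000000000000000000000000000000000000000000000000000000000000001f85f840000090090000002012010000040240200000804804000010090080000201201000004024022010000080400000000000000000000000000000000000000000000000000000000000000000000000000000000000000000000000000000000000000000000007c3e0001f843010000090080400002011008000040220100000804402000010088040000201100800004020000000000000000000001f0f80007e10c0400002402010080400000000000000000000000000000000000000000000000000000000000000000000000000000000000000000000000000000000000000000000000007c3e1f840003010090000080402010001008040200020100804000402010080008040201000100804020000000000000000000000001f0f87e10000c040240000)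
noncomputable def Y0_5_7_7 : Nat := (nat_lit 0x550000000000000000000000000000000000000000055000000000000000000000000000000000000000050500000000000000000000000000000000000000005050000000000000000000000000000000000000000550000000000000000000000000000000000000000055000000000000)
noncomputable def Y0_5_8_8 : Nat := (nat_lit 0x47aa000000004000000000000000000000000000000042a0000000000000000011ea800000001000000000042a00000000854000000010a800000000000000000042a00000000000000000010a80000000215000000000000000000000000000000000000000000000000000000000000000000000000000000000000000000204000a000000000000000c1e002800000180000000204000a00000000000000081000280001020005000000000000000000000000000000000000000000000000000000000000000000000000000000000000000000307800a000000600000000000000000000000000000307c7a0000000604000000000000000000000000000307c7a000000060400000000000000000000000)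
noncomputable def C0_5 : Cd := (Cd.mk (nat_lit 198) (nat_lit 4) (nat_lit 4369) SI0_5 SW0_5 RV0_5 CO0_5 (Sl.cons (Sd.mk (nat_lit 0) (nat_lit 0) (nat_lit 0) (nat_lit 12) (Sb.cons (nat_lit 4) (nat_lit 0) (nat_lit 4) (Sb.cons (nat_lit 8) (nat_lit 4) (nat_lit 2) (Sb.cons (nat_lit 12) (nat_lit 6) (nat_lit 6) Sb.nil))) (Bl.c Y0_5_1_0 (nat_lit 40) (nat_lit 1) Bl.nil)) (Sl.cons (Sd.mk (nat_lit 2) (nat_lit 0) (nat_lit 12) (nat_lit 20) (Sb.cons (nat_lit 4) (nat_lit 0) (nat_lit 2) (Sb.cons (nat_lit 8) (nat_lit 2) (nat_lit 4) (Sb.cons (nat_lit 12) (nat_lit 6) (nat_lit 14) Sb.nil))) (Bl.r Y0_5_1_0 (nat_lit 0) Bl.nil)) (Sl.cons (Sd.mk (nat_lit 4) (nat_lit 4) (nat_lit 32) (nat_lit 12) (Sb.cons (nat_lit 0) (nat_lit 0) (nat_lit 4) (Sb.cons (nat_lit 8) (nat_lit 4) (nat_lit 2) (Sb.cons (nat_lit 12) (nat_lit 6) (nat_lit 6) Sb.nil))) (Bl.r Y0_5_2_3 (nat_lit 3) Bl.nil)) (Sl.cons (Sd.mk (nat_lit 5) (nat_lit 4) (nat_lit 44) (nat_lit 27) (Sb.cons (nat_lit 0) (nat_lit 0) (nat_lit 2) (Sb.cons (nat_lit 8) (nat_lit 2)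 (nat_lit 5) (Sb.cons (nat_lit 12) (nat_lit 7) (nat_lit 20) Sb.nil))) (Bl.c Y0_5_2_3 (nat_lit 24) (nat_lit 2) Bl.nil)) (Sl.cons (Sd.mk (nat_lit 9) (nat_lit 8) (nat_lit 71) (nat_lit 28) (Sb.cons (nat_lit 0) (nat_lit 0) (nat_lit 2) (Sb.cons (nat_lit 4) (nat_lit 2) (nat_lit 5) (Sb.cons (nat_lit 12) (nat_lit 7) (nat_lit 21) Sb.nil))) (Bl.r Y0_5_4_5 (nat_lit 5) Bl.nil)) (Sl.cons (Sd.mk (nat_lit 10) (nat_lit 8) (nat_lit 99) (nat_lit 19) (Sb.cons (nat_lit 0) (nat_lit 0) (nat_lit 4) (Sb.cons (nat_lit 4) (nat_lit 4) (nat_lit 2) (Sb.cons (nat_lit 12) (nat_lit 6) (nat_lit 13) Sb.nil))) (Bl.c Y0_5_4_5 (nat_lit 56) (nat_lit 4) Bl.nil)) (Sl.cons (Sd.mk (nat_lit 12) (nat_lit 12) (nat_lit 118) (nat_lit 42) (Sb.cons (nat_lit 0) (nat_lit 0) (nat_lit 12) (Sb.cons (nat_lit 4) (nat_lit 12) (nat_lit 12) (Sb.cons (nat_lit 8) (nat_lit 24) (nat_lit 18) Sb.nil))) (Bl.r Y0_5_6_6 (nat_lit 6) (Bl.c Y0_5_6_6 (nat_lit 84) (nat_lit 6) Bl.nil))) (Sl.cons (Sd.mk (nat_lit 13) (nat_lit 12) (nat_lit 160) (nat_lit 12) (Sb.cons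 (nat_lit 0) (nat_lit 0) (nat_lit 4) (Sb.cons (nat_lit 4) (nat_lit 4) (nat_lit 4) (Sb.cons (nat_lit 8) (nat_lit 8) (nat_lit 4) Sb.nil))) (Bl.r Y0_5_7_7 (nat_lit 7) (Bl.c Y0_5_7_7 (nat_lit 24) (nat_lit 7) Bl.nil))) (Sl.cons (Sd.mk (nat_lit 14) (nat_lit 12) (nat_lit 172) (nat_lit 26) (Sb.cons (nat_lit 0) (nat_lit 0) (nat_lit 4) (Sb.cons (nat_lit 4) (nat_lit 4) (nat_lit 10) (Sb.cons (nat_lit 8) (nat_lit 14) (nat_lit 12) Sb.nil))) (Bl.r Y0_5_8_8 (nat_lit 8) (Bl.c Y0_5_8_8 (nat_lit 52) (nat_lit 8) Bl.nil))) Sl.nil))))))))))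
noncomputable def CL0 : Cl := (Cl.cons C0_0 (Cl.cons C0_1 (Cl.cons C0_2 (Cl.cons C0_3 (Cl.cons C0_4 (Cl.cons C0_5 Cl.nil))))))
noncomputable def ZL0_0 : Zl := (Zl.cons (nat_lit 0) (nat_lit 0) (nat_lit 2) (Zl.cons (nat_lit 0) (nat_lit 2) (nat_lit 6) (Zl.cons (nat_lit 19) (nat_lit 8) (nat_lit 10) (Zl.cons (nat_lit 13) (nat_lit 18) (nat_lit 8) (Zl.cons (nat_lit 0) (nat_lit 0) (nat_lit 0) (Zl.cons (nat_lit 32) (nat_lit 26) (nat_lit 12) Zl.nil))))))
noncomputable def ZZ0 : ZZ := (ZZ.cons ZL0_0 ZZ.nil)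
noncomputable def SI1_0 : Nat := (nat_lit 0x8010040100000)
noncomputable def SW1_0 : Nat := (nat_lit 0xa0040008000006002)
noncomputable def RV1_0 : Nat := (nat_lit 0x18400718400f08a01b18401008a027184013)
noncomputable def CO1_0 : Nat := (nat_lit 0x2a802026542025585025582016645016642)
noncomputable def Y1_0_1_2 : Nat := (nat_lit 0x200000000008000000000200000)
noncomputable def C1_0 : Cd := (Cd.mk (nat_lit 6) (nat_lit 5) (nat_lit 1040) SI1_0 SW1_0 RV1_0 CO1_0 (Sl.cons (Sd.mk (nat_lit 5) (nat_lit 4) (nat_lit 0) (nat_lit 2) (Sb.cons (nat_lit 8) (nat_lit 0) (nat_lit 2) Sb.nil) Bl.nil) (Sl.cons (Sd.mk (nat_lit 9) (nat_lit 8) (nat_lit 2) (nat_lit 3) (Sb.cons (nat_lit 4) (nat_lit 0) (nat_lit 2) (Sb.cons (nat_lit 8) (nat_lit 2) (nat_lit 1) Sb.nil)) (Bl.r Y1_0_1_2 (nat_lit 2) Bl.nil)) (Sl.cons (Sd.mk (nat_lit 10) (nat_lit 8) (nat_lit 5) (nat_lit 1) (Sb.cons (nat_lit 8) (nat_lit 0) (nat_lit 1) Sb.nil) (Bl.c Y1_0_1_2 (nat_lit 6) (nat_lit 1) Bl.nil)) Sl.nil))))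
noncomputable def SI1_1 : Nat := (nat_lit 0)
noncomputable def SW1_1 : Nat := (nat_lit 0x2000)
noncomputable def RV1_1 : Nat := (nat_lit 0x208000206000)
noncomputable def CO1_1 : Nat := (nat_lit 0x11004011003)
noncomputable def C1_1 : Cd := (Cd.mk (nat_lit 2) (nat_lit 6) (nat_lit 336) SI1_1 SW1_1 RV1_1 CO1_1 (Sl.cons (Sd.mk (nat_lit 4) (nat_lit 4) (nat_lit 0) (nat_lit 2) (Sb.cons (nat_lit 4) (nat_lit 0) (nat_lit 2) Sb.nil) Bl.nil) Sl.nil))
noncomputable def SI1_2 : Nat := (nat_lit 0x501405010040100400c0300c0300802008020080100400000000000000000)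
noncomputable def SW1_2 : Nat := (nat_lit 0x18004001802a0110080014028013007801001a00c0018008002017003805802400e0058028012000)
noncomputable def RV1_2 : Nat := (nat_lit 0x20600708a00a08a00d20601208a01c10000008a01f08a02810000210000408a02a20800120600108a00020600318400108a03110000508a03e08a04308a04788a012a0600a984009a0600d)
noncomputable def CO1_2 : Nat := (nat_lit 0x2a8030288850280c50265430255850255800241c50166450166400156800142c501100401100301004501004301004200aa05008a80002b05002745001785001105001103001102000143)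
noncomputable def Y1_2_1_0 : Nat := (nat_lit 0x2800000000e400030)
noncomputable def Y1_2_2_3 : Nat := (nat_lit 0x1200009000040000000000c00000000040000000000c00000)
noncomputable def Y1_2_4_5 : Nat := (nat_lit 0x18000000000800004000010000000000800004)
noncomputable def C1_2 : Cd := (Cd.mk (nat_lit 25) (nat_lit 6) (nat_lit 546) SI1_2 SW1_2 RV1_2 CO1_2 (Sl.cons (Sd.mk (nat_lit 0) (nat_lit 0) (nat_lit 0) (nat_lit 7) (Sb.cons (nat_lit 0) (nat_lit 0) (nat_lit 1) (Sb.cons (nat_lit 4) (nat_lit 1) (nat_lit 4) (Sb.cons (nat_lit 8) (nat_lit 5) (nat_lit 2) Sb.nil))) (Bl.c Y1_2_1_0 (nat_lit 4) (nat_lit 1) Bl.nil)) (Sl.cons (Sd.mk (nat_lit 2) (nat_lit 0) (nat_lit 7) (nat_lit 2) (Sb.cons (nat_lit 0) (nat_lit 0) (nat_lit 1) (Sb.cons (nat_lit 8) (nat_lit 1) (nat_lit 1) Sb.nil)) (Bl.r Y1_2_1_0 (nat_lit 0) Bl.nil)) (Sl.cons (Sd.mk (nat_lit 4) (nat_lit 4) (nat_lit 9) (nat_lit 5) (Sb.cons (nat_lit 0) (nat_lit 0) (nat_lit 3) (Sb.cons (nat_lit 4) (nat_lit 3) (nat_lit 2) Sb.nil)) (Bl.r Y1_2_2_3 (nat_lit 3) Bl.nil))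 (Sl.cons (Sd.mk (nat_lit 5) (nat_lit 4) (nat_lit 14) (nat_lit 4) (Sb.cons (nat_lit 0) (nat_lit 0) (nat_lit 1) (Sb.cons (nat_lit 4) (nat_lit 1) (nat_lit 1) (Sb.cons (nat_lit 8) (nat_lit 2) (nat_lit 2) Sb.nil))) (Bl.c Y1_2_2_3 (nat_lit 10) (nat_lit 2) Bl.nil)) (Sl.cons (Sd.mk (nat_lit 9) (nat_lit 8) (nat_lit 18) (nat_lit 4) (Sb.cons (nat_lit 0) (nat_lit 0) (nat_lit 1) (Sb.cons (nat_lit 4) (nat_lit 1) (nat_lit 2) (Sb.cons (nat_lit 8) (nat_lit 3) (nat_lit 1) Sb.nil))) (Bl.r Y1_2_4_5 (nat_lit 5) Bl.nil)) (Sl.cons (Sd.mk (nat_lit 10) (nat_lit 8) (nat_lit 22) (nat_lit 3) (Sb.cons (nat_lit 0) (nat_lit 0) (nat_lit 2) (Sb.cons (nat_lit 8) (nat_lit 2) (nat_lit 1) Sb.nil)) (Bl.c Y1_2_4_5 (nat_lit 8) (nat_lit 4) Bl.nil)) Sl.nil)))))))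
noncomputable def SI1_3 : Nat := (nat_lit 0x300c0300c0200802008020040100401000000000000000)
noncomputable def SW1_3 : Nat := (nat_lit 0x4801c009002804401a008002000c02000c003800801e00b0050018002000)
noncomputable def RV1_3 : Nat := (nat_lit 0x18401508a02d08a02e08a02b08a04a18400008a04e08a00118400208a05708a03718401808a03508a04888a01398400a08a04b98400c982000)
noncomputable def CO1_3 : Nat := (nat_lit 0x156820152c5014ac50142c5011785011002010b850100450100420097850092c5008a820082c5001785001105001102000b85000142000141)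
noncomputable def Y1_3_1_0 : Nat := (nat_lit 0x80000400005e00024000080000000005e00024)
noncomputable def Y1_3_2_3 : Nat := (nat_lit 0xe00007000038000000000e000070000780001c0000e00000)
noncomputable def C1_3 : Cd := (Cd.mk (nat_lit 19) (nat_lit 7) (nat_lit 52) SI1_3 SW1_3 RV1_3 CO1_3 (Sl.cons (Sd.mk (nat_lit 0) (nat_lit 0) (nat_lit 0) (nat_lit 6) (Sb.cons (nat_lit 0) (nat_lit 0) (nat_lit 3) (Sb.cons (nat_lit 4) (nat_lit 3) (nat_lit 3) Sb.nil)) (Bl.c Y1_3_1_0 (nat_lit 8) (nat_lit 1) Bl.nil)) (Sl.cons (Sd.mk (nat_lit 2) (nat_lit 0) (nat_lit 6) (nat_lit 4) (Sb.cons (nat_lit 0) (nat_lit 0) (nat_lit 2) (Sb.cons (nat_lit 4) (nat_lit 2) (nat_lit 2) Sb.nil)) (Bl.r Y1_3_1_0 (nat_lit 0) Bl.nil)) (Sl.cons (Sd.mk (nat_lit 4) (nat_lit 4) (nat_lit 10) (nat_lit 5) (Sb.cons (nat_lit 0) (nat_lit 0) (nat_lit 3) (Sb.cons (nat_lit 4) (nat_lit 3) (nat_lit 2) Sb.nil)) (Bl.r Y1_3_2_3 (nat_lit 3) Bl.nil)) (Sl.cons (Sd.mk (nat_lit 5) (nat_lit 4) (nat_lit 15) (nat_lit 4) (Sb.cons (nat_lit 0) (nat_lit 0) (nat_lit 2)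 (Sb.cons (nat_lit 4) (nat_lit 2) (nat_lit 2) Sb.nil)) (Bl.c Y1_3_2_3 (nat_lit 10) (nat_lit 2) Bl.nil)) Sl.nil)))))
noncomputable def SI1_4 : Nat := (nat_lit 0xc02004010000000000)
noncomputable def SW1_4 : Nat := (nat_lit 0x2800c00e0020030010002000)
noncomputable def RV1_4 : Nat := (nat_lit 0x8a00b08a02008a03208a03608a04408a04c98400d982001)
noncomputable def CO1_4 : Nat := (nat_lit 0x288850241c500aa050082c5002745000b85000142000141)
noncomputable def Y1_4_1_0 : Nat := (nat_lit 0x38000100001e0000c)
noncomputable def Y1_4_2_3 : Nat := (nat_lit 0x200001)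
noncomputable def C1_4 : Cd := (Cd.mk (nat_lit 8) (nat_lit 7) (nat_lit 262) SI1_4 SW1_4 RV1_4 CO1_4 (Sl.cons (Sd.mk (nat_lit 0) (nat_lit 0) (nat_lit 0) (nat_lit 4) (Sb.cons (nat_lit 0) (nat_lit 0) (nat_lit 3) (Sb.cons (nat_lit 8) (nat_lit 3) (nat_lit 1) Sb.nil)) (Bl.c Y1_4_1_0 (nat_lit 4) (nat_lit 1) Bl.nil)) (Sl.cons (Sd.mk (nat_lit 2) (nat_lit 0) (nat_lit 4) (nat_lit 2) (Sb.cons (nat_lit 0) (nat_lit 0) (nat_lit 1) (Sb.cons (nat_lit 8) (nat_lit 1) (nat_lit 1) Sb.nil)) (Bl.r Y1_4_1_0 (nat_lit 0) Bl.nil)) (Sl.cons (Sd.mk (nat_lit 9) (nat_lit 8) (nat_lit 6) (nat_lit 1) (Sb.cons (nat_lit 0) (nat_lit 0) (nat_lit 1) Sb.nil) (Bl.r Y1_4_2_3 (nat_lit 3) Bl.nil)) (Sl.cons (Sd.mk (nat_lit 10) (nat_lit 8) (nat_lit 7) (nat_lit 1) (Sb.cons (nat_lit 0) (nat_lit 0) (nat_lit 1) Sb.nil) (Bl.c Y1_4_2_3 (nat_lit 2) (nat_lit 2) Bl.nil)) Sl.nil)))))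
noncomputable def SI1_5 : Nat := (nat_lit 0x1c0701c0701c0701c0701c0701c070180601806018060180601806018060180601806018060180601405014050140501405014050140401004010040100401004010040100400c0300c0300c0300c0300c0300c02008020080200802004010040100401004010040100000000000000000000)
noncomputable def SW1_5 : Nat := (nat_lit 0x1d80e806002f017008c030017008804000e00601c80dc07003601a80b405802b015008804202000f805802a00f007003400a00402d816809e04d027013009601e006002c01405902c015c094049024011c03a01c00d805001200302b011808a04402180d0052028013802000405502a010808202600080000a605202000fc07c03301900c404a01a028814007a03c0120064026012)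
noncomputable def RV1_5 : Nat := (nat_lit 0x8a03b08a01108a03408a00820600908a00908a03908a00f08a03a08a01008a03808a00e88a018a0600c08a007208002206002a0600e08a00220600518400488a01408a00320800318400588a01608a00588a01708a00618400688a01508a00408a05b08a05308a05508a05120600820800420600608a05908a00c20800518400808a01e08a01a20601020601108a01920600f18400e08a01d18401110000108a02208a02308a02108a02508a02608a02420800618401208a03008a02918401410000308a02f08a02c08a04f08a04008a04208a03d08a04620600418400308a05a08a05208a05408a05018401608a03320800718401708a05608a05808a04d08a03f08a04108a03c08a04508a049a0600b98400b)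
noncomputable def CO1_5 : Nat := (nat_lit 0x3aac503a8c503a64503a44503a4430394850392c50390c5038ac50388c50382c50380c50329c50329030328c50328040328030325430324450324430324420315850314850314840314820311c50310c50309c50308c50308820301c50300c502bb8502bb0502b34502b30502b04302b00402b0030297850288850288840288820279850279050279030271430271050271030271020255850255820255800251c50249c50241c5017a05017245017205017204017202016ac5016645016642016640014ac50142c5013b85013b0501334501330501274501004301004200bb8500bb0500b34500b30500b20200aa0500aa0400aa0200a745009785003b85003b05003345003305002745001785001103001102)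
noncomputable def Y1_5_1_0 : Nat := (nat_lit 0x68000000001e00000000018000080001e0000200001000008000e00000000078000000001e40000000078000000001e000000)
noncomputable def Y1_5_2_3 : Nat := (nat_lit 0x28000000001b8000000006e000000001b8000000010000000003ac0000600010000000)
noncomputable def Y1_5_4_5 : Nat := (nat_lit 0x400000000010000000001a00000000068000000000400000000068000000000400000001f90005c0000e400070003c00000000070000000001c00000000070000000)
noncomputable def Y1_5_6_6 : Nat := (nat_lit 0x200000000000a40001000029000040000000000000029000000000a400000000290000000000000000400090000010002400000400090000000000000000220000000000000000000222001000010008080000000000000008880000000)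
noncomputable def Y1_5_7_7 : Nat := (nat_lit 0x2000000000000000000000a8000000000000000000000000000000000000000c00000000000000000000e00000000000000000000e00000000000000000)
noncomputable def C1_5 : Cd := (Cd.mk (nat_lit 92) (nat_lit 4) (nat_lit 4369) SI1_5 SW1_5 RV1_5 CO1_5 (Sl.cons (Sd.mk (nat_lit 0) (nat_lit 0) (nat_lit 0) (nat_lit 8) (Sb.cons (nat_lit 4) (nat_lit 0) (nat_lit 3) (Sb.cons (nat_lit 8) (nat_lit 3) (nat_lit 1) (Sb.cons (nat_lit 12) (nat_lit 4) (nat_lit 4) Sb.nil))) (Bl.c Y1_5_1_0 (nat_lit 20) (nat_lit 1) Bl.nil)) (Sl.cons (Sd.mk (nat_lit 2) (nat_lit 0) (nat_lit 8) (nat_lit 10) (Sb.cons (nat_lit 4) (nat_lit 0) (nat_lit 1) (Sb.cons (nat_lit 8) (nat_lit 1) (nat_lit 4) (Sb.cons (nat_lit 12) (nat_lit 5) (nat_lit 5) Sb.nil))) (Bl.r Y1_5_1_0 (nat_lit 0) Bl.nil)) (Sl.cons (Sd.mk (nat_lit 4) (nat_lit 4) (nat_lit 18) (nat_lit 7) (Sb.cons (nat_lit 0) (nat_lit 0) (nat_lit 2) (Sb.cons (nat_lit 8) (nat_lit 2) (nat_lit 1) (Sb.cons (nat_lit 12) (nat_lit 3) (nat_lit 4) Sb.nil))) (Bl.r Y1_5_2_3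 (nat_lit 3) Bl.nil)) (Sl.cons (Sd.mk (nat_lit 5) (nat_lit 4) (nat_lit 25) (nat_lit 11) (Sb.cons (nat_lit 0) (nat_lit 0) (nat_lit 2) (Sb.cons (nat_lit 8) (nat_lit 2) (nat_lit 4) (Sb.cons (nat_lit 12) (nat_lit 6) (nat_lit 5) Sb.nil))) (Bl.c Y1_5_2_3 (nat_lit 14) (nat_lit 2) Bl.nil)) (Sl.cons (Sd.mk (nat_lit 9) (nat_lit 8) (nat_lit 36) (nat_lit 13) (Sb.cons (nat_lit 0) (nat_lit 0) (nat_lit 2) (Sb.cons (nat_lit 4) (nat_lit 2) (nat_lit 4) (Sb.cons (nat_lit 12) (nat_lit 6) (nat_lit 7) Sb.nil))) (Bl.r Y1_5_4_5 (nat_lit 5) Bl.nil)) (Sl.cons (Sd.mk (nat_lit 10) (nat_lit 8) (nat_lit 49) (nat_lit 11) (Sb.cons (nat_lit 0) (nat_lit 0) (nat_lit 3) (Sb.cons (nat_lit 4) (nat_lit 3) (nat_lit 1) (Sb.cons (nat_lit 12) (nat_lit 4) (nat_lit 7) Sb.nil))) (Bl.c Y1_5_4_5 (nat_lit 26) (nat_lit 4) Bl.nil)) (Sl.cons (Sd.mk (nat_lit 12) (nat_lit 12) (nat_lit 60) (nat_lit 20) (Sb.cons (nat_lit 0) (nat_lit 0) (nat_lit 5) (Sb.cons (nat_lit 4) (nat_lit 5) (nat_lit 6) (Sb.cons (nat_lit 8) (nat_lit 11) (nat_lit 9) Sb.nil)))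 (Bl.r Y1_5_6_6 (nat_lit 6) (Bl.c Y1_5_6_6 (nat_lit 40) (nat_lit 6) Bl.nil))) (Sl.cons (Sd.mk (nat_lit 14) (nat_lit 12) (nat_lit 80) (nat_lit 12) (Sb.cons (nat_lit 0) (nat_lit 0) (nat_lit 4) (Sb.cons (nat_lit 4) (nat_lit 4) (nat_lit 3) (Sb.cons (nat_lit 8) (nat_lit 7) (nat_lit 5) Sb.nil))) (Bl.r Y1_5_7_7 (nat_lit 7) (Bl.c Y1_5_7_7 (nat_lit 24) (nat_lit 7) Bl.nil))) Sl.nil)))))))))
noncomputable def CL1 : Cl := (Cl.cons C1_0 (Cl.cons C1_1 (Cl.cons C1_2 (Cl.cons C1_3 (Cl.cons C1_4 (Cl.cons C1_5 Cl.nil))))))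
noncomputable def AL1_0 : Nat := (nat_lit 0xe2c33)
noncomputable def A41_0 : Nat := (nat_lit 0x82c30)
noncomputable def IX1_0 : Nat := (nat_lit 0x50000000000000000000000000000000000000000000000000000000000000000000000000000040000000000000000000000000300000000000020000000000000000000000000000000000000000000000000000000000000000100000000000000000000000000000000000000000000000000000000000000000)
noncomputable def OL1_0 : Nat := (nat_lit 0x260034005800a000a0010)
noncomputable def AL1_1 : Nat := (nat_lit 0x3046)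
noncomputable def A41_1 : Nat := (nat_lit 0x6)
noncomputable def IX1_1 : Nat := (nat_lit 0x100000000000000000000000000)
noncomputable def OL1_1 : Nat := (nat_lit 0x40004)
noncomputable def AL1_2 : Nat := (nat_lit 0x46527e5633e0bf4)
noncomputable def A41_2 : Nat := (nat_lit 0x42524a5233c0bf4)
noncomputable def IX1_2 : Nat := (nat_lit 0x180000000000000000000000000000000000000000000000000000000000000001700000000000000000000000000000000000001600000000000000000000000015000000000000000000000000000000000000014000000000000000000000000000000000000013000000000000000000000000000000000000012000000000000000000000000110000000000000000000000000000000000000100000000000000000000000000f00000000000000000000000000000000000000e000000000000000000000000000000000000000000000000000d000000000000c00000000000000000000000000000000000000b000000000000a00000000000090000000000008000000000000000000000000000000000000000000000000000000000000000000000000000000000000000000700000000000000000000000006000000000000500000000000040000000000003000000000000200000000000010000000000000000000000000000000000000000000000000000)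
noncomputable def OL1_2 : Nat := (nat_lit 0xe801a8032006000b40150027004a0088010001d0032006000a80140026004800580090010001c003000500080008)
noncomputable def AL1_3 : Nat := (nat_lit 0x2f3bddb)
noncomputable def A41_3 : Nat := (nat_lit 0x2f3bddb)
noncomputable def IX1_3 : Nat := (nat_lit 0x12000000000000000000000000110000000000010000000000000f000000000000e00000000000000000000000000000000000000d000000000000c000000000000b0000000000000000000000000a0000000000009000000000000800000000000070000000000000000000000000600000000000050000000000004000000000000000000000000030000000000002000000000000000000000000010000000000000)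
noncomputable def OL1_3 : Nat := (nat_lit 0x19002e005800a801400220040007800d0018002c0050008000e0018002000300020000)
noncomputable def AL1_4 : Nat := (nat_lit 0x5707b)
noncomputable def A41_4 : Nat := (nat_lit 0x4305b)
noncomputable def IX1_4 : Nat := (nat_lit 0x7000000000000000000000000000000000000000000000000000000000000000060000000000005000000000000000000000000000000000000000000000000000000000000000000000000000004000000000000000000000000030000000000002000000000000000000000000010000000000000)
noncomputable def OL1_4 : Nat := (nat_lit 0x9000d00180018002000300020000)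
noncomputable def AL1_5 : Nat := (nat_lit 0x367973f0007733d9fd9fff2d70ee0bff83833f7ffbfc87effb)
noncomputable def A41_5 : Nat := (nat_lit 0x321813f0005711c87d09f32d708c09f782023f7cd3cc07ecdb)
noncomputable def IX1_5 : Nat := (nat_lit 0x5b000000000005a0000000000000000000000000000000000000590000000000000000000000000000000000000000000000000000000000000005800000000000570000000000000000000000000000000000000000000000000000000000000000000000000000000000000000056000000000000000000000000000000000000055000000000005400000000000530000000000052000000000005100000000000500000000000000000000000000000000000000000000000000000000000000000000000000000000000000000000000000000000000000000000000000000000000000000000000000000000000000000000000000000000000004f0000000000000000000000004e0000000000000000000000004d000000000004c000000000004b000000000000000000000000000000000000000000000000004a00000000000000000000000000000000000000000000000000490000000000048000000000004700000000000000000000000000000000000004600000000000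0000000000000000000000000000000000000000000000000000450000000000044000000000004300000000000420000000000041000000000000000000000000400000000000000000000000000000000000000000000000000000000000000003f00000000000000000000000000000000000003e000000000003d000000000003c000000000003b000000000003a000000000000000000000000000000000000039000000000003800000000000000000000000000000000000003700000000000000000000000036000000000003500000000000000000000000034000000000000000000000000330000000000032000000000003100000000000000000000000000000000000000000000000000000000000000030000000000000000000000000000000000000000000000000002f000000000002e000000000000000000000000000000000000000000000000000000000000000000000000000000000000000002d00000000000000000000000000000000000002c000000000002b000000000002a000000000002900000000000280000000000000000000000002700000000000260000000000025000000000002400000000000000000000000000000000000000000000000000000000000000000000000000002300000000000000000000000000000000000000000000000000000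00000000000000000000000000000000000000000000000002200000000000000000000000000000000000000000000000000210000000000020000000000001f000000000001e000000000001d000000000001c0000000000000000000000001b000000000001a00000000000190000000000018000000000001700000000000000000000000000000000000001600000000000150000000000000000000000001400000000000000000000000000000000000001300000000000120000000000011000000000001000000000000000000000000000000000000000f000000000000e0000000000000000000000000000000000000000000000000000000000000000000000000000000000000000000000000000000d000000000000c000000000000b000000000000a000000000000900000000000080000000000000000000000000700000000000060000000000000000000000000000000000000050000000000004000000000000000000000000030000000000002000000000000000000000000010000000000000)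
noncomputable def OL1_5 : Nat := (nat_lit 0x6280c4018202f005d80b4016202c005780ae015a02b004f009c0134026404c00940120023c047008b010c021404200830104020003d807800ee01d803a807400e201c0036806b00d401a0033006500c8017c02d805a00a60140027804e009a013002500490090011c0208039006a00d00198032006200c0017002d005800ac0150027004c00900108020003e007800d801a00240044008000f001c0034005800a000e0018002000300020000)
noncomputable def TL1 : Tl := (Tl.cons (Tr.mk AL1_0 A41_0 IX1_0 OL1_0) (Tl.cons (Tr.mk AL1_1 A41_1 IX1_1 OL1_1) (Tl.cons (Tr.mk AL1_2 A41_2 IX1_2 OL1_2) (Tl.cons (Tr.mk AL1_3 A41_3 IX1_3 OL1_3) (Tl.cons (Tr.mk AL1_4 A41_4 IX1_4 OL1_4) (Tl.cons (Tr.mk AL1_5 A41_5 IX1_5 OL1_5) Tl.nil))))))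
noncomputable def ZL1_0 : Zl := (Zl.cons (nat_lit 0) (nat_lit 0) (nat_lit 6) (Zl.cons (nat_lit 0) (nat_lit 0) (nat_lit 2) (Zl.cons (nat_lit 0) (nat_lit 0) (nat_lit 25) (Zl.cons (nat_lit 0) (nat_lit 0) (nat_lit 19) (Zl.cons (nat_lit 0) (nat_lit 0) (nat_lit 8) (Zl.cons (nat_lit 0) (nat_lit 0) (nat_lit 92) Zl.nil))))))
noncomputable def ZZ1 : ZZ := (ZZ.cons ZL1_0 ZZ.nil)
noncomputable def C2_0 : Cd := (Cd.mk (nat_lit 0) (nat_lit 5) (nat_lit 1040) (nat_lit 0) (nat_lit 0) (nat_lit 0) (nat_lit 0) Sl.nil)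
noncomputable def C2_1 : Cd := (Cd.mk (nat_lit 0) (nat_lit 6) (nat_lit 336) (nat_lit 0) (nat_lit 0) (nat_lit 0) (nat_lit 0) Sl.nil)
noncomputable def SI2_2 : Nat := (nat_lit 0x400)
noncomputable def SW2_2 : Nat := (nat_lit 0x1)
noncomputable def RV2_2 : Nat := (nat_lit 0x8a00208a004)
noncomputable def CO2_2 : Nat := (nat_lit 0x25585016645)
noncomputable def C2_2 : Cd := (Cd.mk (nat_lit 2) (nat_lit 6) (nat_lit 546) SI2_2 SW2_2 RV2_2 CO2_2 (Sl.cons (Sd.mk (nat_lit 5) (nat_lit 4) (nat_lit 0) (nat_lit 1) (Sb.cons (nat_lit 8) (nat_lit 0) (nat_lit 1) Sb.nil) Bl.nil) (Sl.cons (Sd.mk (nat_lit 9) (nat_lit 8) (nat_lit 1) (nat_lit 1) (Sb.cons (nat_lit 4) (nat_lit 0) (nat_lit 1) Sb.nil) Bl.nil) Sl.nil)))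
noncomputable def SI2_3 : Nat := (nat_lit 0x8020040100000)
noncomputable def SW2_3 : Nat := (nat_lit 0x60010028000008002)
noncomputable def RV2_3 : Nat := (nat_lit 0x8a00b08a00008a00808a00688a00108a009)
noncomputable def CO2_3 : Nat := (nat_lit 0x10b850100450092c50082c5001105000b85)
noncomputable def Y2_3_1_0 : Nat := (nat_lit 0x1010)
noncomputable def C2_3 : Cd := (Cd.mk (nat_lit 6) (nat_lit 7) (nat_lit 52) SI2_3 SW2_3 RV2_3 CO2_3 (Sl.cons (Sd.mk (nat_lit 0) (nat_lit 0) (nat_lit 0) (nat_lit 2) (Sb.cons (nat_lit 0) (nat_lit 0) (nat_lit 1) (Sb.cons (nat_lit 4) (nat_lit 1) (nat_lit 1) Sb.nil)) (Bl.c Y2_3_1_0 (nat_lit 4) (nat_lit 1) Bl.nil)) (Sl.cons (Sd.mk (nat_lit 2) (nat_lit 0) (nat_lit 2) (nat_lit 2) (Sb.cons (nat_lit 0) (nat_lit 0) (nat_lit 1) (Sb.cons (nat_lit 4) (nat_lit 1) (nat_lit 1) Sb.nil)) (Bl.r Y2_3_1_0 (nat_lit 0) Bl.nil)) (Sl.cons (Sd.mk (nat_lit 4) (nat_lit 4) (nat_lit 4) (nat_lit 2) (Sb.cons (nat_lit 0) (nat_lit 0) (nat_lit 2) Sb.nil) Bl.nil) Sl.nil))))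
noncomputable def SI2_4 : Nat := (nat_lit 0x400)
noncomputable def SW2_4 : Nat := (nat_lit 0x1)
noncomputable def RV2_4 : Nat := (nat_lit 0x8a00708a00a)
noncomputable def CO2_4 : Nat := (nat_lit 0x82c5000b85)
noncomputable def Y2_4_1_0 : Nat := (nat_lit 0x10)
noncomputable def C2_4 : Cd := (Cd.mk (nat_lit 2) (nat_lit 7) (nat_lit 262) SI2_4 SW2_4 RV2_4 CO2_4 (Sl.cons (Sd.mk (nat_lit 0) (nat_lit 0) (nat_lit 0) (nat_lit 1) (Sb.cons (nat_lit 0) (nat_lit 0) (nat_lit 1) Sb.nil) (Bl.c Y2_4_1_0 (nat_lit 2) (nat_lit 1) Bl.nil)) (Sl.cons (Sd.mk (nat_lit 2) (nat_lit 0) (nat_lit 1) (nat_lit 1) (Sb.cons (nat_lit 0) (nat_lit 0) (nat_lit 1) Sb.nil) (Bl.r Y2_4_1_0 (nat_lit 0) Bl.nil)) Sl.nil)))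
noncomputable def SI2_5 : Nat := (nat_lit 0x1405014040100400c030080200400)
noncomputable def SW2_5 : Nat := (nat_lit 0x4001c00c00b00500240060020028010000001)
noncomputable def RV2_5 : Nat := (nat_lit 0xa0600520800020600020600320800120600208a00318400008a005184001206001a06004)
noncomputable def CO2_5 : Nat := (nat_lit 0x3290303280403280302b04302b00402b003025585025582016645016642010043001103)
noncomputable def Y2_5_1_2 : Nat := (nat_lit 0x30)
noncomputable def Y2_5_3_4 : Nat := (nat_lit 0x7070)
noncomputable def C2_5 : Cd := (Cd.mk (nat_lit 12) (nat_lit 4) (nat_lit 4369) SI2_5 SW2_5 RV2_5 CO2_5 (Sl.cons (Sd.mk (nat_lit 0) (nat_lit 0) (nat_lit 0) (nat_lit 1) (Sb.cons (nat_lit 4) (nat_lit 0) (nat_lit 1) Sb.nil) Bl.nil) (Sl.cons (Sd.mk (nat_lit 4) (nat_lit 4) (nat_lit 1) (nat_lit 1) (Sb.cons (nat_lit 0) (nat_lit 0) (nat_lit 1) Sb.nil) (Bl.r Y2_5_1_2 (nat_lit 2) Bl.nil)) (Sl.cons (Sd.mk (nat_lit 5) (nat_lit 4) (nat_lit 2) (nat_lit 2) (Sb.cons (nat_lit 8) (nat_lit 0) (nat_lit 2) Sb.nil) (Bl.c Y2_5_1_2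 (nat_lit 2) (nat_lit 1) Bl.nil)) (Sl.cons (Sd.mk (nat_lit 9) (nat_lit 8) (nat_lit 4) (nat_lit 2) (Sb.cons (nat_lit 4) (nat_lit 0) (nat_lit 2) Sb.nil) (Bl.r Y2_5_3_4 (nat_lit 4) Bl.nil)) (Sl.cons (Sd.mk (nat_lit 10) (nat_lit 8) (nat_lit 6) (nat_lit 3) (Sb.cons (nat_lit 12) (nat_lit 0) (nat_lit 3) Sb.nil) (Bl.c Y2_5_3_4 (nat_lit 4) (nat_lit 3) Bl.nil)) (Sl.cons (Sd.mk (nat_lit 12) (nat_lit 12) (nat_lit 9) (nat_lit 3) (Sb.cons (nat_lit 8) (nat_lit 0) (nat_lit 3) Sb.nil) Bl.nil) Sl.nil)))))))
noncomputable def CL2 : Cl := (Cl.cons C2_0 (Cl.cons C2_1 (Cl.cons C2_2 (Cl.cons C2_3 (Cl.cons C2_4 (Cl.cons C2_5 Cl.nil))))))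
noncomputable def AL2_0 : Nat := (nat_lit 0)
noncomputable def A42_0 : Nat := (nat_lit 0)
noncomputable def IX2_0 : Nat := (nat_lit 0)
noncomputable def OL2_0 : Nat := (nat_lit 0)
noncomputable def AL2_1 : Nat := (nat_lit 0)
noncomputable def A42_1 : Nat := (nat_lit 0)
noncomputable def IX2_1 : Nat := (nat_lit 0)
noncomputable def OL2_1 : Nat := (nat_lit 0)
noncomputable def AL2_2 : Nat := (nat_lit 0x11660b0)
noncomputable def A42_2 : Nat := (nat_lit 0x120000)
noncomputable def IX2_2 : Nat := (nat_lit 0x100000000000000000000000000000000000000000000000000000000000000000000000000000000000000000000000000000000000000000000000000000000000000000000000000000000000000000000000000000000000000000000000000000000000000000000000000000000000000000000000000000000000000000000)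
noncomputable def OL2_2 : Nat := (nat_lit 0x280044)
noncomputable def AL2_3 : Nat := (nat_lit 0x3db74)
noncomputable def A42_3 : Nat := (nat_lit 0x1954)
noncomputable def IX2_3 : Nat := (nat_lit 0x5000000000000400000000000000000000000000000000000000300000000000000000000000002000000000000000000000000010000000000000000000000000000000000000000000000000000)
noncomputable def OL2_3 : Nat := (nat_lit 0x18002c004000600080008)
noncomputable def AL2_4 : Nat := (nat_lit 0xfc)
noncomputable def A42_4 : Nat := (nat_lit 0x14)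
noncomputable def IX2_4 : Nat := (nat_lit 0x10000000000000000000000000000000000000000000000000000)
noncomputable def OL2_4 : Nat := (nat_lit 0x80008)
noncomputable def AL2_5 : Nat := (nat_lit 0xd801c2e003003008e002)
noncomputable def A42_5 : Nat := (nat_lit 0x580000e0030030080002)
noncomputable def IX2_5 : Nat := (nat_lit 0xb0000000000000000000000000a0000000000009000000000000000000000000000000000000000000000000000000000000000000000000000000000000000000000000000000000000000000000000000000000000000000000000000000000000000000000000000000000000000000000000000000000000000000000000000000000000000000000000000000000000000000080000000000007000000000000600000000000000000000000000000000000000000000000000000000000000000000000000000000000000000000000000000000000000000000000000000000000000000000000000000000000500000000000040000000000000000000000000000000000000000000000000000000000000000000000000000000000000000000000000000000000000000000000000000000000000000000000300000000000020000000000000000000000000000000000000000000000000000000000000000000000000000000000000000000000000000000000000000000010000000000000000000000000000000000000000000000000000000000000000000000000000000000000000000000000000000000000000000000000000000000000000000000000000000000000000000000000000000000000000000000000000000000000000000000000000000000000000000000000000000)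
noncomputable def OL2_5 : Nat := (nat_lit 0x27004c009600dc01b0035005200a000e801c00260004)
noncomputable def TL2 : Tl := (Tl.cons (Tr.mk AL2_0 A42_0 IX2_0 OL2_0) (Tl.cons (Tr.mk AL2_1 A42_1 IX2_1 OL2_1) (Tl.cons (Tr.mk AL2_2 A42_2 IX2_2 OL2_2) (Tl.cons (Tr.mk AL2_3 A42_3 IX2_3 OL2_3) (Tl.cons (Tr.mk AL2_4 A42_4 IX2_4 OL2_4) (Tl.cons (Tr.mk AL2_5 A42_5 IX2_5 OL2_5) Tl.nil))))))
noncomputable def ZL2_0 : Zl := (Zl.cons (nat_lit 0) (nat_lit 0) (nat_lit 0) (Zl.cons (nat_lit 0) (nat_lit 0) (nat_lit 0) (Zl.cons (nat_lit 0) (nat_lit 0) (nat_lit 0) (Zl.cons (nat_lit 4) (nat_lit 0) (nat_lit 2) (Zl.cons (nat_lit 0) (nat_lit 0) (nat_lit 0) (Zl.cons (nat_lit 1) (nat_lit 2) (nat_lit 1) Zl.nil))))))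
noncomputable def ZZ2 : ZZ := (ZZ.cons ZL2_0 ZZ.nil)
def wf0_0 : wfC (nat_lit 43) (nat_lit 2) C0_0 = true := by decide +kernel
def pl0_0 : plCk (nat_lit 43) (nat_lit 2) (nat_lit 11) (nat_lit 0) (nat_lit 0) (nat_lit 7) (nat_lit 6) (nat_lit 4) (nat_lit 0) nl0 CL0 = true := by decide +kernel
def wf0_1 : wfC (nat_lit 43) (nat_lit 2) C0_1 = true := by decide +kernel
def pl0_1 : plCk (nat_lit 43) (nat_lit 2) (nat_lit 11) (nat_lit 0) (nat_lit 0) (nat_lit 7) (nat_lit 6) (nat_lit 4) (nat_lit 1) nl0 CL0 = true := by decide +kernel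
def wf0_2 : wfC (nat_lit 43) (nat_lit 2) C0_2 = true := by decide +kernel
def pl0_2 : plCk (nat_lit 43) (nat_lit 2) (nat_lit 11) (nat_lit 0) (nat_lit 0) (nat_lit 7) (nat_lit 6) (nat_lit 4) (nat_lit 2) nl0 CL0 = true := by decide +kernel
def wf0_3 : wfC (nat_lit 43) (nat_lit 2) C0_3 = true := by decide +kernel
def pl0_3 : plCk (nat_lit 43) (nat_lit 2) (nat_lit 11) (nat_lit 0) (nat_lit 0) (nat_lit 7) (nat_lit 6) (nat_lit 4) (nat_lit 3) nl0 CL0 = true := by decide +kernel
def wf0_4 : wfC (nat_lit 43) (nat_lit 2) C0_4 = true := by decide +kernel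
def pl0_4 : plCk (nat_lit 43) (nat_lit 2) (nat_lit 11) (nat_lit 0) (nat_lit 0) (nat_lit 7) (nat_lit 6) (nat_lit 4) (nat_lit 4) nl0 CL0 = true := by decide +kernel
def wf0_5 : wfC (nat_lit 43) (nat_lit 2) C0_5 = true := by decide +kernel
def pl0_5 : plCk (nat_lit 43) (nat_lit 2) (nat_lit 11) (nat_lit 0) (nat_lit 0) (nat_lit 7) (nat_lit 6) (nat_lit 4) (nat_lit 5) nl0 CL0 = true := by decide +kernel
def ti0_0 : tileCk (nat_lit 43) (nat_lit 2) (nat_lit 1) (nat_lit 1) (nat_lit 38) (nat_lit 11) (nat_lit 6) ZL0_0 CL0 = true := by decide +kernel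
def zl0_0 : zlOK (nat_lit 38) ZL0_0 = true := by decide +kernel
def tc0_0 : tiCov (nat_lit 1) (nat_lit 0) ZZ0 C0_0 = true := by decide +kernel
def tc0_1 : tiCov (nat_lit 1) (nat_lit 1) ZZ0 C0_1 = true := by decide +kernel
def tc0_2 : tiCov (nat_lit 1) (nat_lit 2) ZZ0 C0_2 = true := by decide +kernel
def tc0_3 : tiCov (nat_lit 1) (nat_lit 3) ZZ0 C0_3 = true := by decide +kernel
def tc0_4 : tiCov (nat_lit 1) (nat_lit 4) ZZ0 C0_4 = true := by decide +kernel
def tc0_5 : tiCov (nat_lit 1) (nat_lit 5) ZZ0 C0_5 = true := by decide +kernel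
def wf1_0 : wfC (nat_lit 21) (nat_lit 2) C1_0 = true := by decide +kernel
def rf1_0 : rfCk (nat_lit 43) (nat_lit 2) (nat_lit 21) (nat_lit 2) (nat_lit 9) (nat_lit 0) (nat_lit 0) TL1 CL0 CL1 = true := by decide +kernel
def sc1_0 : stCov (nat_lit 1) (nat_lit 0) Rl.nil C1_0 = true := by decide +kernel
def wf1_1 : wfC (nat_lit 21) (nat_lit 2) C1_1 = true := by decide +kernel
def rf1_1 : rfCk (nat_lit 43) (nat_lit 2) (nat_lit 21) (nat_lit 2) (nat_lit 9) (nat_lit 0) (nat_lit 1) TL1 CL0 CL1 = true := by decide +kernel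
def sc1_1 : stCov (nat_lit 2) (nat_lit 0) Rl.nil C1_1 = true := by decide +kernel
def wf1_2 : wfC (nat_lit 21) (nat_lit 2) C1_2 = true := by decide +kernel
def rf1_2 : rfCk (nat_lit 43) (nat_lit 2) (nat_lit 21) (nat_lit 2) (nat_lit 9) (nat_lit 0) (nat_lit 2) TL1 CL0 CL1 = true := by decide +kernel
def st1_2_0 : starCk (nat_lit 21) (nat_lit 2) (nat_lit 1) (nat_lit 1) (nat_lit 2) (nat_lit 7) (nat_lit 1) C1_2 = true := by decide +kernel
def sc1_2 : stCov (nat_lit 0) (nat_lit 7) (Rl.cons (nat_lit 7) (nat_lit 2) Rl.nil) C1_2 = true := by decide +kernel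
def wf1_3 : wfC (nat_lit 21) (nat_lit 2) C1_3 = true := by decide +kernel
def rf1_3 : rfCk (nat_lit 43) (nat_lit 2) (nat_lit 21) (nat_lit 2) (nat_lit 9) (nat_lit 0) (nat_lit 3) TL1 CL0 CL1 = true := by decide +kernel
def st1_3_0 : starCk (nat_lit 21) (nat_lit 2) (nat_lit 1) (nat_lit 1) (nat_lit 5) (nat_lit 10) (nat_lit 16) C1_3 = true := by decide +kernel
def sc1_3 : stCov (nat_lit 1) (nat_lit 10) (Rl.cons (nat_lit 10) (nat_lit 5) Rl.nil) C1_3 = true := by decide +kernel
def wf1_4 : wfC (nat_lit 21) (nat_lit 2) C1_4 = true := by decide +kernel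
def rf1_4 : rfCk (nat_lit 43) (nat_lit 2) (nat_lit 21) (nat_lit 2) (nat_lit 9) (nat_lit 0) (nat_lit 4) TL1 CL0 CL1 = true := by decide +kernel
def st1_4_0 : starCk (nat_lit 21) (nat_lit 2) (nat_lit 1) (nat_lit 1) (nat_lit 1) (nat_lit 6) (nat_lit 256) C1_4 = true := by decide +kernel
def sc1_4 : stCov (nat_lit 2) (nat_lit 6) (Rl.cons (nat_lit 6) (nat_lit 1) Rl.nil) C1_4 = true := by decide +kernel
def wf1_5 : wfC (nat_lit 21) (nat_lit 2) C1_5 = true := by decide +kernel
def rf1_5 : rfCk (nat_lit 43) (nat_lit 2) (nat_lit 21) (nat_lit 2) (nat_lit 9) (nat_lit 0) (nat_lit 5) TL1 CL0 CL1 = true := by decide +kernel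
def st1_5_0 : starCk (nat_lit 21) (nat_lit 2) (nat_lit 1) (nat_lit 1) (nat_lit 7) (nat_lit 18) (nat_lit 16) C1_5 = true := by decide +kernel
def sc1_5 : stCov (nat_lit 1) (nat_lit 18) (Rl.cons (nat_lit 18) (nat_lit 7) Rl.nil) C1_5 = true := by decide +kernel
def wf2_2 : wfC (nat_lit 4) (nat_lit 2) C2_2 = true := by decide +kernel
def rf2_2 : rfCk (nat_lit 21) (nat_lit 2) (nat_lit 4) (nat_lit 2) (nat_lit 9) (nat_lit 0) (nat_lit 2) TL2 CL1 CL2 = true := by decide +kernel
def wf2_3 : wfC (nat_lit 4) (nat_lit 2) C2_3 = true := by decide +kernel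
def rf2_3 : rfCk (nat_lit 21) (nat_lit 2) (nat_lit 4) (nat_lit 2) (nat_lit 9) (nat_lit 0) (nat_lit 3) TL2 CL1 CL2 = true := by decide +kernel
def wf2_4 : wfC (nat_lit 4) (nat_lit 2) C2_4 = true := by decide +kernel
def rf2_4 : rfCk (nat_lit 21) (nat_lit 2) (nat_lit 4) (nat_lit 2) (nat_lit 9) (nat_lit 0) (nat_lit 4) TL2 CL1 CL2 = true := by decide +kernel
def wf2_5 : wfC (nat_lit 4) (nat_lit 2) C2_5 = true := by decide +kernel
def rf2_5 : rfCk (nat_lit 21) (nat_lit 2) (nat_lit 4) (nat_lit 2) (nat_lit 9) (nat_lit 0) (nat_lit 5) TL2 CL1 CL2 = true := by decide +kernel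
def ti2_0 : tileCk (nat_lit 4) (nat_lit 2) (nat_lit 1) (nat_lit 1) (nat_lit 3) (nat_lit 11) (nat_lit 6) ZL2_0 CL2 = true := by decide +kernel
def zl2_0 : zlOK (nat_lit 3) ZL2_0 = true := by decide +kernel
def tc2_2 : tiCov (nat_lit 1) (nat_lit 2) ZZ2 C2_2 = true := by decide +kernel
def tc2_3 : tiCov (nat_lit 1) (nat_lit 3) ZZ2 C2_3 = true := by decide +kernel
def tc2_4 : tiCov (nat_lit 1) (nat_lit 4) ZZ2 C2_4 = true := by decide +kernel
def tc2_5 : tiCov (nat_lit 1) (nat_lit 5) ZZ2 C2_5 = true := by decide +kernel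
def de2_2 : deadCk (nat_lit 4) (nat_lit 2) C2_2 = true := by decide +kernel
def de2_3 : deadCk (nat_lit 4) (nat_lit 2) C2_3 = true := by decide +kernel
def de2_4 : deadCk (nat_lit 4) (nat_lit 2) C2_4 = true := by decide +kernel
def de2_5 : deadCk (nat_lit 4) (nat_lit 2) C2_5 = true := by decide +kernel
def sc0_0 : stCov (nat_lit 1) (nat_lit 0) (Rl.cons (nat_lit 0) (nat_lit 22) Rl.nil) C0_0 = true := by decide +kernel
def sc0_1 : stCov (nat_lit 1) (nat_lit 0) (Rl.cons (nat_lit 0) (nat_lit 21) Rl.nil) C0_1 = true := by decide +kernel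
def sc0_2 : stCov (nat_lit 0) (nat_lit 0) (Rl.cons (nat_lit 0) (nat_lit 60) Rl.nil) C0_2 = true := by decide +kernel
def sc0_3 : stCov (nat_lit 0) (nat_lit 0) (Rl.cons (nat_lit 0) (nat_lit 26) Rl.nil) C0_3 = true := by decide +kernel
def sc0_4 : stCov (nat_lit 0) (nat_lit 0) (Rl.cons (nat_lit 0) (nat_lit 19) Rl.nil) C0_4 = true := by decide +kernel
def sc0_5 : stCov (nat_lit 0) (nat_lit 0) (Rl.cons (nat_lit 0) (nat_lit 198) Rl.nil) C0_5 = true := by decide +kernel
def zl1_0 : zlOK (nat_lit 92) ZL1_0 = true := by decide +kernel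
def tc1_0 : tiCov (nat_lit 1) (nat_lit 0) ZZ1 C1_0 = true := by decide +kernel
def tc1_1 : tiCov (nat_lit 1) (nat_lit 1) ZZ1 C1_1 = true := by decide +kernel
def tc1_2 : tiCov (nat_lit 1) (nat_lit 2) ZZ1 C1_2 = true := by decide +kernel
def tc1_3 : tiCov (nat_lit 1) (nat_lit 3) ZZ1 C1_3 = true := by decide +kernel
def tc1_4 : tiCov (nat_lit 1) (nat_lit 4) ZZ1 C1_4 = true := by decide +kernel
def tc1_5 : tiCov (nat_lit 1) (nat_lit 5) ZZ1 C1_5 = true := by decide +kernel
def wf2_0 : wfC (nat_lit 4) (nat_lit 2) C2_0 = true := by decide +kernel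
def wf2_1 : wfC (nat_lit 4) (nat_lit 2) C2_1 = true := by decide +kernel
def rf2_0 : rfCk (nat_lit 21) (nat_lit 2) (nat_lit 4) (nat_lit 2) (nat_lit 9) (nat_lit 0) (nat_lit 0) TL2 CL1 CL2 = true := by decide +kernel
def rf2_1 : rfCk (nat_lit 21) (nat_lit 2) (nat_lit 4) (nat_lit 2) (nat_lit 9) (nat_lit 0) (nat_lit 1) TL2 CL1 CL2 = true := by decide +kernel
def sc2_0 : stCov (nat_lit 1) (nat_lit 0) Rl.nil C2_0 = true := by decide +kernel
def sc2_1 : stCov (nat_lit 1) (nat_lit 0) Rl.nil C2_1 = true := by decide +kernel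
def sc2_2 : stCov (nat_lit 0) (nat_lit 0) (Rl.cons (nat_lit 0) (nat_lit 2) Rl.nil) C2_2 = true := by decide +kernel
def sc2_3 : stCov (nat_lit 0) (nat_lit 0) (Rl.cons (nat_lit 0) (nat_lit 6) Rl.nil) C2_3 = true := by decide +kernel
def sc2_4 : stCov (nat_lit 0) (nat_lit 0) (Rl.cons (nat_lit 0) (nat_lit 2) Rl.nil) C2_4 = true := by decide +kernel
def sc2_5 : stCov (nat_lit 0) (nat_lit 0) (Rl.cons (nat_lit 0) (nat_lit 12) Rl.nil) C2_5 = true := by decide +kernel
def tc2_0 : tiCov (nat_lit 1) (nat_lit 0) ZZ2 C2_0 = true := by decide +kernel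
def tc2_1 : tiCov (nat_lit 1) (nat_lit 1) ZZ2 C2_1 = true := by decide +kernel
def de2_0 : deadCk (nat_lit 4) (nat_lit 2) C2_0 = true := by decide +kernel
def de2_1 : deadCk (nat_lit 4) (nat_lit 2) C2_1 = true := by decide +kernel

end Pool.Agent.NNr.R11_5_6_8
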